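import Pool.Agent.Q26.BH.PrimeLaw

/-!
# Systems with a linear polynomial: primes at the linear polynomial, almost primes at the others

Let one of the polynomials `f_1, ..., f_k` be `a n + b`. For `r` large the number of the `n` in a window such that
`a n + b` is PRIME and no `f_i(n)` has a prime factor `≤ N ^ (1/r)` is asymptotic, up to `ε`, to the expected number,
and the numbers of the `m` with all `f_i(m)` without such prime factors in the windows `(n, n + T]` which start at these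
`n` follow the Poisson law. All this is uniform in the systems with coefficients up to `N ^ E` and in the windows.
-/

set_option autoImplicit false

namespace Pool.Agent.Results.MP_51e72e_nt.AlmostPrimeLawAfterPrimes

open Polynomial Finset Filter

/-- irreducible nonconstant polynomials of degrees `≤ D` with coefficients `≤ H`, without fixed prime divisor, none of
them equal to `± f_j(x + t)` with `1 ≤ t ≤ U` -/
structure PolySys (k D : ℕ) (H U : ℝ) (f : Fin k → ℤ[X]) : Prop where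
  irr : ∀ i, Irreducible (f i)
  deg : ∀ i, (f i).natDegree ≠ 0
  degD : ∀ i, (f i).natDegree ≤ D
  hgt : ∀ i n, |(((f i).coeff n : ℤ) : ℝ)| ≤ H
  adm : ∀ p : ℕ, p.Prime → ∃ m : ℕ, ∀ i, ¬ (p : ℤ) ∣ (f i).eval (m : ℤ)
  tr : ∀ i j, ∀ t : ℕ, 1 ≤ t → (t : ℝ) ≤ U → f i ≠ (f j).comp (X + C (t : ℤ)) ∧ f i ≠ -(f j).comp (X + C (t : ℤ))

/-- no `f_i(m)` has a prime factor `p ≤ N ^ (1/r)` -/
def Good {k : ℕ} (f : Fin k → ℤ[X]) (r N m : ℕ) : Prop :=
  ∀ p : ℕ, p.Prime → (p : ℝ) ≤ (N : ℝ) ^ (1 / (r : ℝ)) → ∀ i, ¬ (p : ℤ) ∣ (f i).eval (m : ℤ)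

open Classical in
/-- the number of the residues `m` modulo `p` such that `p` divides some `f_i(m)` -/
noncomputable def omega {k : ℕ} (f : Fin k → ℤ[X]) (p : ℕ) : ℕ :=
  ((range p).filter (fun m : ℕ => ∃ i, (p : ℤ) ∣ (f i).eval (m : ℤ))).card

/-- the product of `1 - ω(p) / p` over the primes `p ≤ N ^ (1/r)` -/
noncomputable def V {k : ℕ} (f : Fin k → ℤ[X]) (r N : ℕ) : ℝ :=
  ∏ p ∈ (Icc 1 ⌊(N : ℝ) ^ (1 / (r : ℝ))⌋₊).filter Nat.Prime, (1 - (omega f p : ℝ) / p)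

/-- the product of `(1 - ω(p) / p) / (1 - 1 / p)` over the primes `p ≤ N ^ (1/r)` -/
noncomputable def W {k : ℕ} (f : Fin k → ℤ[X]) (r N : ℕ) : ℝ :=
  ∏ p ∈ (Icc 1 ⌊(N : ℝ) ^ (1 / (r : ℝ))⌋₊).filter Nat.Prime, ((1 - (omega f p : ℝ) / p) / (1 - 1 / (p : ℝ)))

open Classical in
/-- the good `n` in `(u, u + Y]` with `a n + b` prime -/
noncomputable def P {k : ℕ} (f : Fin k → ℤ[X]) (a b r N u Y : ℕ) : Finset ℕ :=
  (Ioc u (u + Y)).filter (fun n => (a * n + b).Prime ∧ Good f r N n)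

open Classical in
/-- the number of the good integers in `(n, n + T]` -/
noncomputable def count {k : ℕ} (f : Fin k → ℤ[X]) (r N T n : ℕ) : ℕ :=
  ((Ioc n (n + T)).filter (fun m => Good f r N m)).card

lemma good_iff {k : ℕ} (f : Fin k → ℤ[X]) (r N m : ℕ) :
    Good f r N m ↔ Pool.Agent.TH464.PO.Sf (Pool.Agent.W123.RU.Poly.Q f) ⌊(N : ℝ) ^ (1 / (r : ℝ))⌋₊ m := by
  unfold Good Pool.Agent.TH464.PO.Sf Pool.Agent.W123.RU.Poly.Q Pool.Agent.H373R2.T7.pz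
  constructor
  · intro h p hp
    rw [mem_filter, mem_Icc] at hp
    have h1 : (p : ℝ) ≤ (N : ℝ) ^ (1 / (r : ℝ)) :=
      (Nat.le_floor_iff (by positivity)).1 hp.1.2
    push Not
    exact fun i => h p hp.2 h1 i
  · intro h p hp h1 i hi
    have h2 : p ≤ ⌊(N : ℝ) ^ (1 / (r : ℝ))⌋₊ := Nat.le_floor h1
    exact h p (mem_filter.2 ⟨mem_Icc.2 ⟨hp.one_lt.le, h2⟩, hp⟩) ⟨i, hi⟩

lemma omega_eq {k : ℕ} (f : Fin k → ℤ[X]) (p : ℕ) :
    omega f p = Pool.Agent.H373R2.T7.nuB (Pool.Agent.W123.RU.Poly.Q f) p := by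
  unfold omega Pool.Agent.H373R2.T7.nuB
  congr

lemma V_eq {k : ℕ} (f : Fin k → ℤ[X]) (r N : ℕ) :
    V f r N = Pool.Agent.W123.RP.Vq (Pool.Agent.W123.RU.Poly.Q f) ⌊(N : ℝ) ^ (1 / (r : ℝ))⌋₊ := by
  unfold V Pool.Agent.W123.RP.Vq Pool.Agent.H373R2.T7.pz
  refine prod_congr rfl (fun p _ => ?_)
  rw [omega_eq]

lemma W_eq {k : ℕ} (f : Fin k → ℤ[X]) (r N : ℕ) :
    W f r N = Pool.Agent.W123.RP.Vq (Pool.Agent.W123.RU.Poly.Q f) ⌊(N : ℝ) ^ (1 / (r : ℝ))⌋₊ /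
      Pool.Agent.H373R2.T7.Vz ⌊(N : ℝ) ^ (1 / (r : ℝ))⌋₊ := by
  unfold W Pool.Agent.W123.RP.Vq Pool.Agent.H373R2.T7.Vz Pool.Agent.H373R2.T7.pz
  rw [← prod_div_distrib]
  refine prod_congr rfl (fun p _ => ?_)
  rw [omega_eq]

lemma sys_of {k D : ℕ} {H U : ℝ} {f : Fin k → ℤ[X]} (h : PolySys k D H U f) :
    Pool.Agent.Y879.GL.US k D H U f := by
  refine ⟨h.irr, h.deg, h.degD, h.hgt, h.adm, ?_⟩
  intro i j t h1 h2 hA
  obtain ⟨u, hu⟩ := hA.symm
  obtain ⟨c, hc, hcu⟩ := Polynomial.isUnit_iff.1 u.isUnit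
  rcases Int.isUnit_iff.1 hc with rfl | rfl
  · apply (h.tr i j t h1 h2).1
    rw [← hu, ← hcu]
    simp
  · apply (h.tr i j t h1 h2).2
    rw [← hu, ← hcu]
    simp

open Classical in
/-- **Primes and almost primes in systems with a linear polynomial.** Let `a ≥ 1` be squarefree, `k, D ≥ 0`,
`E, δ', θ, δ, ε > 0` and `x₀` real. There is `r₀` such that for each `r ≥ r₀` and all large `N` the following holds,
uniformly. Let `f_1, ..., f_k` be a system of polynomials of degrees `≤ D` with coefficients `≤ N ^ E`, one of them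
`a n + b` with `b ≥ 0` prime to `a`, `b ≤ N ^ (θ/4)`, and such that no value `f_i(n)` is divisible by a prime factor of
`a`. For all `X ≥ N ^ θ` and all intervals `(u, u + Y]` in `[0, X]` with `Y ≥ δ X`:
(1) the number of the good `n` in the interval with `a n + b` PRIME is `(1 ± ε) W Y / log X`;
(2) for every `T` with `T V ≤ x₀` and every set `B` the proportion of those of these `n` for which the number of the
good integers in `(n, n + T]` is in `B` is `∑_{j ∈ B} exp(-TV) (TV)^j / j!` up to `ε`. -/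
theorem result (a k D : ℕ) (ha : Squarefree a) (E δ' θ δ ε x₀ : ℝ) (hE : 0 < E) (hδ' : 0 < δ')
    (hθ : 0 < θ) (hδ : 0 < δ) (hδ1 : δ ≤ 1) (hε : 0 < ε) (hε1 : ε ≤ 1) :
    ∃ r₀ : ℕ, ∀ r : ℕ, r₀ ≤ r → ∀ᶠ N : ℕ in atTop, ∀ (f : Fin k → ℤ[X]) (b : ℕ),
      PolySys k D ((N : ℝ) ^ E) ((N : ℝ) ^ δ') f → Nat.Coprime a b →
      (∀ p n : ℕ, p.Prime → p ∣ a → ∀ i, ¬ (p : ℤ) ∣ (f i).eval (n : ℤ)) →
      (∃ i, ∀ n : ℕ, (f i).eval (n : ℤ) = a * n + b) → (b : ℝ) ≤ (N : ℝ) ^ (θ / 4) →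
      ∀ X : ℕ, (N : ℝ) ^ θ ≤ X → ∀ u Y : ℕ, δ * X ≤ Y → u + Y ≤ X →
        |((P f a b r N u Y).card : ℝ) * Real.log X - Y * W f r N| ≤ ε * (Y * W f r N) ∧
        ∀ T : ℕ, T * V f r N ≤ x₀ → ∀ B : Finset ℕ,
          |(((P f a b r N u Y).filter (fun n => count f r N T n ∈ B)).card : ℝ) -
            (P f a b r N u Y).card *
              ∑ j ∈ B, Real.exp (-(T * V f r N)) * (T * V f r N) ^ j / j.factorial| ≤
          ε * (P f a b r N u Y).card := by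
  obtain ⟨r₀, h⟩ := Pool.Agent.Q26.BH.prime_law a k D ha E δ' θ δ hE hδ' hθ hδ hδ1 x₀ ε hε hε1
  refine ⟨r₀, fun r hr => ?_⟩
  filter_upwards [h r hr] with N hN
  intro f b hf hab hnon hbase hb X hX u Y hY huY
  have hg : ∀ m, Good f r N m ↔
      Pool.Agent.TH464.PO.Sf (Pool.Agent.W123.RU.Poly.Q f) ⌊(N : ℝ) ^ (1 / (r : ℝ))⌋₊ m := good_iff f r N
  have hP : P f a b r N u Y = Pool.Agent.Y879.PR.Om a b (Pool.Agent.W123.RU.Poly.Q f)
      ⌊(N : ℝ) ^ (1 / (r : ℝ))⌋₊ u Y := by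
    unfold P Pool.Agent.Y879.PR.Om
    apply filter_congr
    intro n _
    rw [hg n]
  have h1 := hN f b (sys_of hf) hab
    (fun p n hp hpa hq => by obtain ⟨i, hi⟩ := hq; exact hnon p n hp hpa i hi) hbase hb X hX u Y hY huY
  rw [V_eq, W_eq, hP]
  refine ⟨h1.1, fun T hT B => ?_⟩
  have h2 := h1.2 T hT B
  have e1 : ((Pool.Agent.Y879.PR.Om a b (Pool.Agent.W123.RU.Poly.Q f)
      ⌊(N : ℝ) ^ (1 / (r : ℝ))⌋₊ u Y).filter (fun n => count f r N T n ∈ B)) =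
      ((Pool.Agent.Y879.PR.Om a b (Pool.Agent.W123.RU.Poly.Q f)
        ⌊(N : ℝ) ^ (1 / (r : ℝ))⌋₊ u Y).filter (fun n => Pool.Agent.TH464.PO.Wc
          (Pool.Agent.TH464.PO.Sf (Pool.Agent.W123.RU.Poly.Q f) ⌊(N : ℝ) ^ (1 / (r : ℝ))⌋₊) n T ∈ B)) := by
    apply filter_congr
    intro n _
    unfold count Pool.Agent.TH464.PO.Wc
    rw [filter_congr (fun m _ => hg m)]
  rw [e1]
  exact h2

end Pool.Agent.Results.MP_51e72e_nt.AlmostPrimeLawAfterPrimes
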