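import Pool.Agent.TH882.R9

/-!
Exact patterns of consecutive primes `n + h` together with prime values `g j (n) + k j` of polynomials of arbitrary
degrees, for almost all shifts `k`.
-/

set_option autoImplicit false

open Finset Filter Topology Polynomial

namespace Pool.Agent.Results.MP_51e72e_nt.ConsecutivePatternsShifts

/-- No local obstruction: for every prime `l` there is a residue class `n` modulo `l` for which no
`n + a`, `a ∈ A`, and no `g j (n) + k j` is divisible by `l`. -/
def LocallyPossible {r : ℕ} (A : Finset ℕ) (g : Fin r → ℤ[X]) (k : Fin r → ℕ) : Prop :=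
  ∀ l : ℕ, l.Prime → ∃ n : ℤ, (∀ a ∈ A, ¬ (l : ℤ) ∣ n + a) ∧ ∀ j, ¬ (l : ℤ) ∣ (g j).eval n + k j

/-- All `n + h`, `h ∈ H`, are prime, and no other integer between `n + min H` and `n + max H` is
prime. -/
def Consecutive (H : Finset ℕ) (n : ℕ) : Prop := (∀ h ∈ H, (n + h).Prime) ∧
  ∀ w, (∃ h ∈ H, h ≤ w) → (∃ h ∈ H, w ≤ h) → (n + w).Prime → w ∈ H

/-- The number of the integers `1 ≤ n ≤ x` for which the `n + h`, `h ∈ H`, are consecutive primes and
all `g j (n) + k j` are (positive and) prime. -/
noncomputable def count {r : ℕ} (H : Finset ℕ) (g : Fin r → ℤ[X]) (k : Fin r → ℕ) (x : ℕ) : ℕ :=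
  {n : ℕ | (1 ≤ n ∧ n ≤ x) ∧ Consecutive H n ∧ ∀ j, ((g j).eval (n : ℤ) + k j).toNat.Prime}.ncard

/-- The vectors `k` of integers `1 ≤ k j ≤ κ x ^ (deg g j)` without local obstruction, but such that for no subset
`H` of `A` with `m` elements the count is at least `x / (log x) ^ D`. -/
def exceptions {r : ℕ} (A : Finset ℕ) (g : Fin r → ℤ[X]) (m D κ x : ℕ) : Set (Fin r → ℕ) :=
  {k : Fin r → ℕ | (∀ j, 1 ≤ k j ∧ k j ≤ κ * x ^ (g j).natDegree) ∧ LocallyPossible A g k ∧
    ¬ ∃ H ⊆ A, H.card = m ∧ (x : ℝ) / Real.log x ^ D ≤ (count H g k x : ℝ)}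

/-- **Exact patterns of consecutive primes with prime values of shifted polynomials.** For every `m` there
is `K` such that for all polynomials `g j`, `j < r`, with integer coefficients, positive degrees and positive leading
coefficients and every set `A` of at least `K` nonnegative integers there is `D` with the following property, for
every `κ`. For all vectors `k` of integers `1 ≤ k j ≤ κ x ^ (deg g j)`, `j < r`,
without local obstruction, with at most `o(x ^ (deg g 1 + ... + deg g r))` exceptions, there is a subset `H` of `A`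
with `m` elements such that for at least `x / (log x) ^ D` integers `1 ≤ n ≤ x` the `m` numbers `n + h`,
`h ∈ H`, are consecutive primes and all `g j (n) + k j` are primes. -/
theorem result (m : ℕ) : ∃ K : ℕ, ∀ (r : ℕ) (g : Fin r → ℤ[X]), (∀ j, 1 ≤ (g j).natDegree) →
    (∀ j, 0 < (g j).leadingCoeff) → ∀ A : Finset ℕ, K ≤ A.card → ∃ D : ℕ, ∀ κ : ℕ,
    Tendsto (fun x : ℕ => ((exceptions A g m D κ x).ncard : ℝ) / ∏ j, (x : ℝ) ^ (g j).natDegree) atTop (𝓝 0) := by
  classical
  obtain ⟨K, hK, hfin⟩ := Pool.Agent.TH882.RQ.finQ m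
  refine ⟨4 * (m + 1) * K, ?_⟩
  intro r g hd hl A hA
  obtain ⟨A', hA'1, hA'2⟩ := exists_subset_card_eq hA
  set U : Finset ℕ := A'.image (· + 1) with hU
  have hinj1 : Function.Injective (fun a : ℕ => a + 1) := fun a b hab => by simpa using hab
  have hUc : U.card = 4 * (m + 1) * K := by
    rw [hU, card_image_of_injective _ hinj1, hA'2]
  set g' : Fin r → ℤ[X] := fun j => (g j).comp (X + C 1) with hg'
  have hdeg : ∀ j, (g' j).natDegree = (g j).natDegree := by
    intro j
    rw [hg']
    simp only
    rw [natDegree_comp, natDegree_X_add_C, mul_one]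
  have hlead : ∀ j, (g' j).leadingCoeff = (g j).leadingCoeff := by
    intro j
    rw [hg']
    simp only
    rw [leadingCoeff_comp (by rw [natDegree_X_add_C]; exact one_ne_zero), leadingCoeff_X_add_C, one_pow, mul_one]
  have heval : ∀ (j : Fin r) (n : ℤ), (g' j).eval n = (g j).eval (n + 1) := by
    intro j n
    rw [hg']
    simp only
    rw [eval_comp, eval_add, eval_X, eval_C]
  obtain ⟨D, h⟩ := hfin g' (fun j => by rw [hdeg]; exact hd j) (fun j => by rw [hlead]; exact hl j) U hUc (by
    intro u hu
    rw [hU, mem_image] at hu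
    obtain ⟨a, -, rfl⟩ := hu
    omega)
  refine ⟨D, fun κ => ?_⟩
  have h' := h κ
  have hprod : ∀ x : ℕ, ∏ j, (x : ℝ) ^ (g' j).natDegree = ∏ j, (x : ℝ) ^ (g j).natDegree :=
    fun x => prod_congr rfl (fun j _ => by rw [hdeg])
  have hsq : ∀ᶠ x : ℕ in atTop, ((exceptions A g m D κ x).ncard : ℝ) / ∏ j, (x : ℝ) ^ (g j).natDegree ≤
      ((Pool.Agent.TH882.RQ.ExQ g' U m D κ x).card : ℝ) / ∏ j, (x : ℝ) ^ (g' j).natDegree := by
    filter_upwards [eventually_ge_atTop 1] with x hx
    rw [hprod]
    apply div_le_div_of_nonneg_right _ (by positivity)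
    apply Nat.cast_le.2
    rw [← Set.ncard_coe_finset]
    apply Set.ncard_le_ncard _ (finite_toSet _)
    intro k hk
    unfold exceptions at hk
    rw [Set.mem_setOf_eq] at hk
    obtain ⟨h1, h2, h3⟩ := hk
    unfold Pool.Agent.TH882.RQ.ExQ
    rw [mem_coe, mem_filter, Fintype.mem_piFinset]
    refine ⟨?_, ?_, ?_⟩
    · intro j
      rw [mem_Icc, hdeg]
      exact h1 j
    · intro l hl
      obtain ⟨n, hn, hn2⟩ := h2 l hl
      refine ⟨n - 1, ?_, ?_⟩
      · intro u hu
        rw [hU, mem_image] at hu
        obtain ⟨a, ha, rfl⟩ := hu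
        have e1 := hn a (hA'1 ha)
        have e2 : n - 1 + ((a + 1 : ℕ) : ℤ) = n + a := by
          push_cast
          ring
        rw [e2]
        exact e1
      · intro j
        have e1 := hn2 j
        have e2 : (k j : ℤ) + 1 * (g' j).eval (n - 1) = (g j).eval n + k j := by
          rw [heval]
          ring_nf
        rw [e2]
        exact e1
    · rintro ⟨H, hH1, hH2, hH3⟩
      apply h3
      set H' : Finset ℕ := A'.filter (fun a => a + 1 ∈ H) with hH'
      have hHH' : H = H'.image (· + 1) := by
        ext u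
        rw [mem_image]
        constructor
        · intro hu
          have e1 := hH1 hu
          rw [hU, mem_image] at e1
          obtain ⟨a, ha, rfl⟩ := e1
          exact ⟨a, by rw [hH', mem_filter]; exact ⟨ha, hu⟩, rfl⟩
        · rintro ⟨a, ha, rfl⟩
          rw [hH', mem_filter] at ha
          exact ha.2
      refine ⟨H', (filter_subset _ _).trans hA'1, ?_, hH3.trans ?_⟩
      · rw [← hH2, hHH', card_image_of_injective _ hinj1]
      · apply Nat.cast_le.2
        unfold count
        rw [← card_image_of_injective _ hinj1, ← Set.ncard_coe_finset]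
        apply Set.ncard_le_ncard
        · intro n hn
          rw [mem_coe, mem_image] at hn
          obtain ⟨n', hn', rfl⟩ := hn
          unfold Pool.Agent.TH882.RQ.CQ at hn'
          rw [mem_filter, mem_Ico] at hn'
          obtain ⟨e1, ⟨e2, e3⟩, e4⟩ := hn'
          rw [Set.mem_setOf_eq]
          refine ⟨by omega, ⟨?_, ?_⟩, ?_⟩
          · intro a ha
            have e5 := e2 (a + 1) (by rw [hHH']; exact mem_image_of_mem _ ha)
            have e6 : n' + 1 + a = n' + (a + 1) := by ring
            rw [e6]
            exact e5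
          · rintro w ⟨a, ha, haw⟩ ⟨c, hc, hwc⟩ hp
            have e6 : n' + (w + 1) = n' + 1 + w := by ring
            have e5 := e3 (w + 1) ⟨a + 1, by rw [hHH']; exact mem_image_of_mem _ ha, by omega⟩
              ⟨c + 1, by rw [hHH']; exact mem_image_of_mem _ hc, by omega⟩ (by rw [e6]; exact hp)
            rw [hHH', mem_image] at e5
            obtain ⟨w', hw', he⟩ := e5
            have : w' = w := by simpa using he
            rwa [← this]
          · intro j
            have e5 := e4 j
            have e7 : (k j : ℤ) + 1 * (g' j).eval (n' : ℤ) = (g j).eval ((n' + 1 : ℕ) : ℤ) + k j := by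
              rw [heval]
              push_cast
              ring
            rw [e7] at e5
            exact e5
        · apply (finite_toSet (Icc 1 x)).subset
          intro n hn
          rw [Set.mem_setOf_eq] at hn
          rw [mem_coe, mem_Icc]
          exact hn.1
  exact tendsto_of_tendsto_of_tendsto_of_le_of_le' tendsto_const_nhds h'
    (Eventually.of_forall fun x => by positivity) hsq

end Pool.Agent.Results.MP_51e72e_nt.ConsecutivePatternsShifts
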