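import Pool.Agent.Q48.RD.PMom

/-!
# All moments of the number of simultaneous prime values of polynomials in short intervals, at integers with restricted digits

Let `f_1, …, f_l` be irreducible integer polynomials of degree at least `3` with positive leading coefficients, no two of them equal or
translates of each other, whose product has no fixed prime divisor. We count the `n` in `(x, x + T]` for which all `|f_j (n)|` are primes
(or almost primes).

Let `g ≥ 2` be a base and `K` a large number of digits. For every `i < K` let `A i` be an arbitrary set of digits, such that the number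
`|A 0| ⋯ |A (K - 1)|` of the integers `t < g ^ K` whose `i`-th digit belongs to `A i` for all `i < K` is at least `exp (- c K) g ^ K`.
Let `n₀ ≤ N ≤ g ^ (E K)` be arbitrary. We consider the numbers `x = N + t` with these `t`: they form a set with only
`y ^ (1 - δ)` elements in an interval of length `y = g ^ K`, which may be an arbitrarily small power of `x`.

Let `k ≥ 1` and `T ≤ g ^ (E K)`. The quantitative hypothesis H for the `k l` polynomials `f_j (x + h_i)`, averaged over the shifts
`h_1, …, h_k ≤ T`, predicts that the mean value of `(π_F (x + T) - π_F (x)) ^ k` has the order of magnitude of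
`(T / K ^ l) ^ k` for `T ≥ K ^ l` and of `T / K ^ l` for `T ≤ K ^ l`. We prove

(1) the upper bound of this order, for `x` in all these sets;

(2) the exact order of magnitude for the numbers `n` in `(x, x + T]` for which all `f_j (n)` are almost primes;

(3) that a positive proportion (for `T ≤ K ^ l`: the expected proportion `T / K ^ l`) of the intervals `(x, x + T]` contains the
expected number of such `n`.

There is no condition on the place `N ≥ n₀` and on the sets of digits, and the constants do not depend on them.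
-/

set_option autoImplicit false

namespace Pool.Agent.Results.MP_51e72e_nt.MomentsInShortIntervals

open Filter Finset Polynomial
open Pool.Agent.Q315.RD Pool.Agent.Q48.RD

/-- Irreducible integer polynomials of degree at least `3` with positive leading coefficients, no two of them equal or translates of each
other, such that no prime divides the product of all values. -/
structure Good {l : ℕ} (f : Fin l → ℤ[X]) : Prop where
  irreducible : ∀ j, Irreducible (f j)
  degree : ∀ j, 3 ≤ (f j).natDegree
  leading : ∀ j, 0 < (f j).leadingCoeff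
  translates : ∀ i j, i ≠ j → ∀ t : ℤ, f i ≠ (f j).comp (X + C t)
  admissible : ∀ p : ℕ, p.Prime → ∃ n : ℕ, ∀ j, ¬ (p : ℤ) ∣ (f j).eval (n : ℤ)

/-- The number of the `n` with `x < n ≤ x + T` for which all `|f_j (n)|` are primes (this is `π_F (x + T) - π_F (x)`). -/
def primesIn {l : ℕ} (f : Fin l → ℤ[X]) (x T : ℕ) : ℕ := ((Ioc x (x + T)).filter fun n : ℕ => ∀ j, ((f j).eval (n : ℤ)).natAbs.Prime).card

open Classical in
/-- The number of the `n` with `x < n ≤ x + T` for which all `f_j (n)` have at most `r` prime factors, all larger than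
`y ^ (1 / r)`. -/
noncomputable def almostPrimesIn (y r : ℕ) {l : ℕ} (f : Fin l → ℤ[X]) (x T : ℕ) : ℕ :=
  ((Ioc x (x + T)).filter fun n : ℕ => ∀ j, AlmostPrime y r ((f j).eval (n : ℤ)).natAbs).card

open Classical in
/-- The integers `t < g ^ K` whose `i`-th digit belongs to `A i` for all `i < K`. -/
noncomputable def digitSet (g K : ℕ) (A : ℕ → Finset ℕ) : Finset ℕ := (range (g ^ K)).filter (HasDigits g K A)

/-- The predicted order of magnitude of the mean value of the `k`-th power: `T / K ^ l` for `T ≤ K ^ l` and `(T / K ^ l) ^ k` for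
`T ≥ K ^ l`. -/
noncomputable def order (l k T K : ℕ) : ℝ := min 1 ((T : ℝ) / (K : ℝ) ^ l) * max 1 ((T : ℝ) / (K : ℝ) ^ l) ^ k

lemma large_values (f : ℤ[X]) (hd : 3 ≤ f.natDegree) (hl : 0 < f.leadingCoeff) : ∃ n₀ : ℕ, ∀ n : ℕ, n₀ ≤ n → (n : ℤ) ≤ 2 * f.eval (n : ℤ) := by
  obtain ⟨P, hP⟩ : ∃ P : ℝ[X], P = C 2 * f.map (Int.castRingHom ℝ) - X := ⟨_, rfl⟩
  have hf0 : f ≠ 0 := by
    intro h
    rw [h, natDegree_zero] at hd
    omega
  have hinj : Function.Injective (Int.castRingHom ℝ) := RingHom.injective_int _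
  have hm0 : f.map (Int.castRingHom ℝ) ≠ 0 := (Polynomial.map_ne_zero_iff hinj).2 hf0
  have hdeg1 : (C (2 : ℝ) * f.map (Int.castRingHom ℝ)).degree = (f.natDegree : WithBot ℕ) := by
    rw [degree_C_mul (by norm_num), degree_map_eq_of_injective hinj, degree_eq_natDegree hf0]
  have hlt : (X : ℝ[X]).degree < (C (2 : ℝ) * f.map (Int.castRingHom ℝ)).degree := by
    rw [hdeg1, degree_X]
    exact_mod_cast (by omega : 1 < f.natDegree)
  have hdegP : P.degree = (f.natDegree : WithBot ℕ) := by
    rw [hP, degree_sub_eq_left_of_degree_lt hlt, hdeg1]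
  have hleadP : P.leadingCoeff = 2 * f.leadingCoeff := by
    rw [hP, leadingCoeff_sub_of_degree_lt hlt, leadingCoeff_mul, leadingCoeff_C, leadingCoeff_map_of_injective hinj]
    rfl
  have h1 := P.tendsto_atTop_of_leadingCoeff_nonneg (by
    rw [hdegP]
    exact_mod_cast (by omega : 0 < f.natDegree)) (by
    rw [hleadP]
    have : (0 : ℝ) < f.leadingCoeff := by exact_mod_cast hl
    linarith)
  have h2 := (h1.comp tendsto_natCast_atTop_atTop).eventually (eventually_ge_atTop 0)
  obtain ⟨n₀, h3⟩ := eventually_atTop.1 h2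
  refine ⟨n₀, fun n hn => ?_⟩
  have h4 := h3 n hn
  simp only [Function.comp] at h4
  rw [hP, eval_sub, eval_mul, eval_C, eval_X] at h4
  have h5 : (f.map (Int.castRingHom ℝ)).eval (n : ℝ) = ((f.eval (n : ℤ) : ℤ) : ℝ) := by
    have := eval_intCast_map (Int.castRingHom ℝ) f (n : ℤ)
    simpa using this
  rw [h5] at h4
  have h6 : (n : ℝ) ≤ ((2 * f.eval (n : ℤ) : ℤ) : ℝ) := by
    push_cast
    linarith
  exact_mod_cast h6

/-- **All moments of the number of simultaneous prime values in short intervals at integers with restricted digits.** -/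
theorem result {l : ℕ} (f : Fin l → ℤ[X]) (hf : Good f) (k : ℕ) (hk : 1 ≤ k) (E : ℕ) :
    ∃ n₀ : ℕ, ∃ c : ℝ, 0 < c ∧ ∃ r₀ : ℕ, 2 ≤ r₀ ∧ ∀ r : ℕ, r₀ ≤ r → ∀ g : ℕ, 2 ≤ g → ∃ κ C : ℝ, 0 < κ ∧ 0 < C ∧
      ∀ᶠ K : ℕ in atTop, ∀ N T : ℕ, n₀ ≤ N → N ≤ g ^ (E * K) → 1 ≤ T → T ≤ g ^ (E * K) →
        ∀ A : ℕ → Finset ℕ, (∀ i < K, A i ⊆ range g) → (g : ℝ) ^ K ≤ Real.exp (c * K) * choices K A →
        -- the primes
        ∑ t ∈ digitSet g K A, (primesIn f (N + t) T : ℝ) ^ k ≤ C * order l k T K * choices K A ∧
        -- the almost primes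
        ∑ t ∈ digitSet g K A, (almostPrimesIn (g ^ K) r f (N + t) T : ℝ) ^ k ≤ C * order l k T K * choices K A ∧
        (g ≤ T →
          κ * order l k T K * choices K A ≤ ∑ t ∈ digitSet g K A, (almostPrimesIn (g ^ K) r f (N + t) T : ℝ) ^ k ∧
          κ * min 1 ((T : ℝ) / (K : ℝ) ^ l) * choices K A ≤
            (((digitSet g K A).filter fun t => κ * max 1 ((T : ℝ) / (K : ℝ) ^ l) ≤ almostPrimesIn (g ^ K) r f (N + t) T).card : ℝ)) := by
  classical
  choose m hm using fun j => large_values (f j) (hf.degree j) (hf.leading j)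
  obtain ⟨n₀, hn₀⟩ : ∃ n₀ : ℕ, ∀ j, m j ≤ n₀ :=
    ⟨∑ j, m j, fun j => single_le_sum (f := m) (fun _ _ => Nat.zero_le _) (mem_univ j)⟩
  obtain ⟨c, hc, r0, hr0, H⟩ := polyMoments f
    { irr := hf.irreducible
      deg := fun j => by have := hf.degree j; omega
      lead := hf.leading
      inj := fun i j hij => by
        by_contra hne
        exact hf.translates i j hne 0 (by rw [hij]; simp)
      adm := hf.admissible }
    hf.translates (fun j n => ((f j).eval (n : ℤ)).natAbs) n₀
    (fun j n hn => by
      have := hm j n ((hn₀ j).trans hn)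
      rw [Int.natCast_natAbs, abs_of_nonneg (by omega)])
    (fun j n hn => by
      have := hm j n ((hn₀ j).trans hn)
      omega) k hk E
  refine ⟨n₀, c, hc, r0, hr0, fun r hr g hg => ?_⟩
  obtain ⟨κ, C, hκ, hC, H⟩ := H r hr g hg
  refine ⟨κ, C, hκ, hC, ?_⟩
  filter_upwards [H] with K HK
  intro N T hN0 hN hT1 hT A hA1 hA2
  obtain ⟨h1, h2, h3⟩ := HK N T hN0 hN hT1 hT A ⟨hA1, hA2⟩
  have e1 : ∀ x, primesIn f x T = numIn (fun n => ∀ j, ((f j).eval (n : ℤ)).natAbs.Prime) x T := by
    intro x
    unfold primesIn numIn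
    congr!
  have e2 : ∀ x, almostPrimesIn (g ^ K) r f x T = numIn (fun n => ∀ j, AlmostPrime (g ^ K) r ((f j).eval (n : ℤ)).natAbs) x T := by
    intro x
    unfold almostPrimesIn numIn
    congr!
  simp only [e1, e2]
  refine ⟨h1, h2, fun hgT => ⟨(h3 hgT).1, (h3 hgT).2.trans (le_of_eq ?_)⟩⟩
  unfold count digitSet
  rw [filter_filter]

end Pool.Agent.Results.MP_51e72e_nt.MomentsInShortIntervals
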