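import Pool.Agent.Q26.BH.Poisson

/-!
# The Poisson law and the gap laws for the almost prime values of systems of polynomials

An unconditional analogue for almost primes of the theorem of Gallagher. Let `f_1, ..., f_k` be a system as in the
problem without fixed prime divisor, in which no polynomial is a translate `f_j(x + t)`, `t ≥ 1`, of itself or of
another one. Call `m` good if no `f_i(m)` has a prime factor `≤ N ^ (1/r)`, and let `V` be the density of the sieve.
For `r` large and fixed the numbers of good integers in windows of length `T` are distributed, up to `ε`, like a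
Poisson variable with mean `T V`, in every interval of length at least `N ^ θ`, wherever it lies, and the gaps between
the good integers follow the corresponding laws.
-/

set_option autoImplicit false

namespace Pool.Agent.Results.MP_51e72e_nt.PoissonAndGapLaws

open Polynomial Finset Filter

/-- distinct irreducible nonconstant polynomials with positive leading coefficients, without fixed prime divisor, none
of them equal to a translate `f_j(x + t)`, `t ≥ 1` -/
structure PolySys {k : ℕ} (f : Fin k → ℤ[X]) : Prop where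
  irr : ∀ i, Irreducible (f i)
  deg : ∀ i, 0 < (f i).natDegree
  lead : ∀ i, 0 < (f i).leadingCoeff
  inj : Function.Injective f
  adm : ∀ p : ℕ, p.Prime → ∃ m : ℕ, ∀ i, ¬ (p : ℤ) ∣ (f i).eval (m : ℤ)
  tr : ∀ (i j : Fin k) (t : ℕ), 1 ≤ t → f i ≠ (f j).comp (X + C (t : ℤ))

/-- no `f_i(m)` has a prime factor `p ≤ N ^ (1/r)` -/
def Good {k : ℕ} (f : Fin k → ℤ[X]) (r N m : ℕ) : Prop :=
  ∀ p : ℕ, p.Prime → (p : ℝ) ≤ (N : ℝ) ^ (1 / (r : ℝ)) → ∀ i, ¬ (p : ℤ) ∣ (f i).eval (m : ℤ)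

open Classical in
/-- the sieve density: the product over the primes `p ≤ N ^ (1/r)` of `1 - ω(p) / p`, where `ω(p)` is the number of the
residues `m` modulo `p` such that `p` divides some `f_i(m)` -/
noncomputable def V {k : ℕ} (f : Fin k → ℤ[X]) (r N : ℕ) : ℝ :=
  ∏ p ∈ (Icc 1 ⌊(N : ℝ) ^ (1 / (r : ℝ))⌋₊).filter Nat.Prime,
    (1 - (((range p).filter (fun m : ℕ => ∃ i, (p : ℤ) ∣ (f i).eval (m : ℤ))).card : ℝ) / p)

open Classical in
/-- the number of the good integers in `(n, n + T]` -/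
noncomputable def count {k : ℕ} (f : Fin k → ℤ[X]) (r N T n : ℕ) : ℕ :=
  ((Ioc n (n + T)).filter (fun m => Good f r N m)).card

/-- the weights of the Poisson law -/
noncomputable def pois (x : ℝ) (j : ℕ) : ℝ := Real.exp (-x) * x ^ j / j.factorial

lemma good_iff {k : ℕ} (f : Fin k → ℤ[X]) (r N m : ℕ) :
    Good f r N m ↔ Pool.Agent.TH464.PO.Sf (Pool.Agent.W123.RU.Poly.Q f) ⌊(N : ℝ) ^ (1 / (r : ℝ))⌋₊ m := by
  unfold Good Pool.Agent.TH464.PO.Sf Pool.Agent.W123.RU.Poly.Q Pool.Agent.H373R2.T7.pz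
  constructor
  · intro h p hp
    rw [mem_filter, mem_Icc] at hp
    have h1 : (p : ℝ) ≤ (N : ℝ) ^ (1 / (r : ℝ)) :=
      (Nat.le_floor_iff (by positivity)).1 hp.1.2
    push Not
    exact fun i => h p hp.2 h1 i
  · intro h p hp h1 i hi
    have h2 : p ≤ ⌊(N : ℝ) ^ (1 / (r : ℝ))⌋₊ := Nat.le_floor h1
    exact h p (mem_filter.2 ⟨mem_Icc.2 ⟨hp.one_lt.le, h2⟩, hp⟩) ⟨i, hi⟩

lemma V_eq {k : ℕ} (f : Fin k → ℤ[X]) (r N : ℕ) :
    V f r N = Pool.Agent.W123.RP.Vq (Pool.Agent.W123.RU.Poly.Q f) ⌊(N : ℝ) ^ (1 / (r : ℝ))⌋₊ := by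
  unfold V Pool.Agent.W123.RP.Vq Pool.Agent.H373R2.T7.pz Pool.Agent.H373R2.T7.nuB
  refine prod_congr rfl (fun p _ => ?_)
  congr

open Classical in
/-- **The Poisson law and the gap laws.** Let `f` be a system, `θ, ε > 0`, `x₀` real and `l₀ ≥ 0`. There is `r₀` such
that for every `r ≥ r₀` and all large `N` the following holds in all intervals `(Z, Z + Y]` with `Y ≥ N ^ θ`.
(1) For every `T` with `T V ≤ x₀` and every set `A` the number of the `n` in the interval such that the number of the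
good integers in `(n, n + T]` lies in `A` is `Y ∑_{j ∈ A} exp(-TV) (TV)^j / j!` up to `ε Y`.
(2) For all `l, T` with `l ≤ l₀` or `T V ≤ x₀` the number of the good `b` in the interval with fewer than `l` good
integers in `[b - T, b)` is `Y V ∑_{j < l} exp(-TV) (TV)^j / j!` up to `ε Y V`. -/
theorem result {k : ℕ} (hk : 0 < k) (f : Fin k → ℤ[X]) (hf : PolySys f) (θ ε x₀ : ℝ) (hθ : 0 < θ)
    (hε : 0 < ε) (l₀ : ℕ) :
    ∃ r₀ : ℕ, ∀ r : ℕ, r₀ ≤ r → ∀ᶠ N : ℕ in atTop, ∀ Z Y : ℕ, (N : ℝ) ^ θ ≤ Y →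
      (∀ T : ℕ, T * V f r N ≤ x₀ → ∀ A : Finset ℕ,
        |(((Ioc Z (Z + Y)).filter (fun n => count f r N T n ∈ A)).card : ℝ) -
          Y * ∑ j ∈ A, pois (T * V f r N) j| ≤ ε * Y) ∧
      (∀ l T : ℕ, (l ≤ l₀ ∨ T * V f r N ≤ x₀) →
        |(((Ioc Z (Z + Y)).filter (fun b => Good f r N b ∧
            ((Ico (b - T) b).filter (fun m => Good f r N m)).card < l)).card : ℝ) -
          Y * V f r N * ∑ j ∈ range l, pois (T * V f r N) j| ≤ ε * (Y * V f r N)) := by
  have : Nonempty (Fin k) := ⟨⟨0, hk⟩⟩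
  have hS : Pool.Agent.W123.RU.Poly.Sys f := ⟨hf.irr, hf.deg, hf.lead, hf.inj, hf.adm⟩
  have hT : Pool.Agent.TH464.PO.NoTr f := hf.tr
  obtain ⟨r1, h1⟩ := Pool.Agent.Q26.BH.poisson_Z f hS hT θ hθ x₀ ε hε
  obtain ⟨r2, h2⟩ := Pool.Agent.Y879.GL.gap_poly_Z f hS hT θ hθ l₀ x₀ ε hε
  refine ⟨max r1 r2, ?_⟩
  intro r hr
  filter_upwards [h1 r ((le_max_left _ _).trans hr), h2 r ((le_max_right _ _).trans hr)] with N hN1 hN2
  intro Z Y hY
  have hg : ∀ m, Good f r N m ↔
      Pool.Agent.TH464.PO.Sf (Pool.Agent.W123.RU.Poly.Q f) ⌊(N : ℝ) ^ (1 / (r : ℝ))⌋₊ m := good_iff f r N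
  have hV := V_eq f r N
  constructor
  · intro T hTx A
    rw [hV] at hTx ⊢
    have h3 := hN1 Z Y hY T hTx A
    have e1 : ((Ioc Z (Z + Y)).filter (fun n => count f r N T n ∈ A)) =
        ((Ioc Z (Z + Y)).filter (fun n => Pool.Agent.TH464.PO.Wc
          (Pool.Agent.TH464.PO.Sf (Pool.Agent.W123.RU.Poly.Q f) ⌊(N : ℝ) ^ (1 / (r : ℝ))⌋₊) n T ∈ A)) := by
      apply filter_congr
      intro n _
      unfold count Pool.Agent.TH464.PO.Wc
      rw [filter_congr (fun m _ => hg m)]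
    rw [e1]
    exact h3
  · intro l T hTx
    rw [hV] at hTx ⊢
    have h3 := hN2 Z Y hY l T hTx
    have e1 : ((Ioc Z (Z + Y)).filter (fun b => Good f r N b ∧
            ((Ico (b - T) b).filter (fun m => Good f r N m)).card < l)) =
        ((Ioc Z (Z + Y)).filter (fun b => Pool.Agent.TH464.PO.Sf (Pool.Agent.W123.RU.Poly.Q f)
            ⌊(N : ℝ) ^ (1 / (r : ℝ))⌋₊ b ∧
            ((Ico (b - T) b).filter (Pool.Agent.TH464.PO.Sf (Pool.Agent.W123.RU.Poly.Q f)
              ⌊(N : ℝ) ^ (1 / (r : ℝ))⌋₊)).card < l)) := by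
      apply filter_congr
      intro b _
      rw [hg b, filter_congr (fun m _ => hg m)]
    rw [e1]
    exact h3

end Pool.Agent.Results.MP_51e72e_nt.PoissonAndGapLaws
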